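import Mathlib
import Pool.Agent.Q251.GN.Fin

/-! Satake parameters of cusp forms on `GL(2)` over a number field with their symmetric square and symmetric fourth
power lifts. -/

set_option autoImplicit false

namespace Pool.Agent.Q164.RM

open NumberField IsDedekindDomain Pool.Agent.TH861.GL3 Pool.Agent.Q251.GN

variable {K : Type*} [Field K] [NumberField K] {S : Finset (HeightOneSpectrum (𝓞 K))}

/-- The trace of `Sym^{2a} ⊗ det^{-a}` at `diag (x 0, x 1)`: the sum of the `(x 0 / x 1) ^ m`, `-a ≤ m ≤ a`. For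
`a = 1` this is the trace of the adjoint lift `Ad π` to `GL(3)`, for `a = 2` that of the lift `A^4 π` to `GL(5)`. -/
noncomputable def symTr (a : ℕ) (x : Fin 2 → ℂ) : ℂ :=
  ∑ j ∈ Finset.range (2 * a + 1), (x 0 / x 1) ^ ((j : ℤ) - (a : ℤ))

/-- the logarithm `∑_{v ∉ S} ∑_{n ≥ 1} t(v, n) / n · q_v^{-ns}` of an Euler product over the places `v ∉ S` -/
noncomputable def logL (t : PL S → ℕ → ℂ) (s : ℂ) : ℂ :=
  ∑' x : PL S × ℕ, t x.1 (x.2 + 1) / ((x.2 : ℂ) + 1) * (((qq x.1.1 : ℕ) : ℂ) ^ (-s)) ^ (x.2 + 1)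

/-- the Euler product with the logarithm `logL t`, `Re s > 1`, is continuous and not zero at `s = 1` -/
def NonzeroAtOne (t : PL S → ℕ → ℂ) : Prop :=
  ∃ L : ℂ → ℂ, ContinuousAt L 1 ∧ L 1 ≠ 0 ∧ ∀ s : ℂ, 1 < s.re → L s = Complex.exp (logL t s)

/-- Properties of the Satake parameters `α v`, `v ∉ S`, of a unitary cuspidal automorphic representation `π` of
`GL_2` over the number field `K` which is not dihedral, tetrahedral or octahedral, so that the lifts `Ad π` to `GL_3`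
(Gelbart-Jacquet) and `A^4 π` to `GL_5` (Kim) are cuspidal. -/
structure CuspidalGL2 (α : PL S → Fin 2 → ℂ) : Prop where
  /-- the local components are unitary -/
  unitary : ∀ v, (∀ i, α v i ≠ 0) ∧
    Multiset.map (fun i => ((starRingEnd ℂ) (α v i))⁻¹) Finset.univ.val =
      Multiset.map (α v) Finset.univ.val
  /-- the bound of Kim and Sarnak (Blomer and Brumley over `K`) -/
  kim_sarnak : ∀ v i, ‖α v i‖ ≤ (qq v.1 : ℝ) ^ (7 / 64 : ℝ)
  /-- absolute convergence of `L(s, A^4 π × A^4 π)` for `Re s > 1` -/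
  summable : ∀ σ : ℝ, 1 < σ → Summable fun x : PL S × ℕ =>
    ‖symTr 2 (fun i => α x.1 i ^ (x.2 + 1))‖ ^ 2 / ((x.2 : ℝ) + 1) * (((qq x.1.1 : ℕ) : ℝ) ^ (-σ)) ^ (x.2 + 1)
  /-- `L^S(s, Ad π)` and `L^S(s, A^4 π)` -/
  single : ∀ a, a = 1 ∨ a = 2 → NonzeroAtOne fun v n => symTr a fun i => α v i ^ n
  /-- the pole of `L^S(s, Ad π × Ad π)` and of `L^S(s, A^4 π × A^4 π)` is simple: the quotient by the zeta function -/
  self : ∀ a, a = 1 ∨ a = 2 → NonzeroAtOne fun v n => symTr a (fun i => α v i ^ n) ^ 2 - 1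
  /-- `L^S(s, Ad π × A^4 π)` -/
  mixed : NonzeroAtOne fun v n => symTr 1 (fun i => α v i ^ n) * symTr 2 fun i => α v i ^ n

/-- The lifts of `π` and `π'` are not equivalent: `Ad π ≇ Ad π'` (which means that `π'` is not a twist of `π`) and
`A^4 π ≇ A^4 π'`; the Rankin-Selberg `L`-functions of the lifts are holomorphic and not zero at `s = 1`. -/
def Inequivalent (α β : PL S → Fin 2 → ℂ) : Prop :=
  ∀ a b, (a = 1 ∨ a = 2) → (b = 1 ∨ b = 2) →
    NonzeroAtOne fun v n => symTr a (fun i => α v i ^ n) * symTr b fun i => β v i ^ n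

/-- the places where `π` is not tempered -/
def Violates (α : PL S → Fin 2 → ℂ) : Set (PL S) := {v | ¬ ∀ i, ‖α v i‖ = 1}

end Pool.Agent.Q164.RM
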