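import Mathlib
import Pool.Agent.Q164.RM.Defs

/-! Local facts on unitary Satake parameters of `GL(2)`. -/

set_option autoImplicit false

namespace Pool.Agent.Q164.RM

open Complex Filter Topology

/-- unitary: both parameters have absolute value one, or they are `x` and `1 / conj x` -/
def Uni (x : Fin 2 → ℂ) : Prop :=
  (∀ i, x i ≠ 0) ∧ ((∀ i, ‖x i‖ = 1) ∨ x 0 * (starRingEnd ℂ) (x 1) = 1)

theorem symTr_one (x : Fin 2 → ℂ) : symTr 1 x = (x 0 / x 1)⁻¹ + 1 + x 0 / x 1 := by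
  unfold symTr
  rw [show 2 * 1 + 1 = 3 by norm_num, Finset.sum_range_succ, Finset.sum_range_succ, Finset.sum_range_succ,
    Finset.sum_range_zero]
  norm_num

theorem symTr_two (x : Fin 2 → ℂ) :
    symTr 2 x = ((x 0 / x 1)⁻¹) ^ 2 + (x 0 / x 1)⁻¹ + 1 + x 0 / x 1 + (x 0 / x 1) ^ 2 := by
  unfold symTr
  rw [show 2 * 2 + 1 = 5 by norm_num, Finset.sum_range_succ, Finset.sum_range_succ, Finset.sum_range_succ,
    Finset.sum_range_succ, Finset.sum_range_succ, Finset.sum_range_zero]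
  have h1 : (x 0 / x 1) ^ (((0 : ℕ) : ℤ) - ((2 : ℕ) : ℤ)) = ((x 0 / x 1)⁻¹) ^ 2 := by
    rw [show (((0 : ℕ) : ℤ) - ((2 : ℕ) : ℤ)) = -((2 : ℕ) : ℤ) by norm_num, zpow_neg, zpow_natCast, inv_pow]
  have h2 : (x 0 / x 1) ^ (((1 : ℕ) : ℤ) - ((2 : ℕ) : ℤ)) = (x 0 / x 1)⁻¹ := by
    rw [show (((1 : ℕ) : ℤ) - ((2 : ℕ) : ℤ)) = -1 by norm_num, zpow_neg_one]
  have h3 : (x 0 / x 1) ^ (((2 : ℕ) : ℤ) - ((2 : ℕ) : ℤ)) = 1 := by
    rw [show (((2 : ℕ) : ℤ) - ((2 : ℕ) : ℤ)) = 0 by norm_num, zpow_zero]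
  have h4 : (x 0 / x 1) ^ (((3 : ℕ) : ℤ) - ((2 : ℕ) : ℤ)) = x 0 / x 1 := by
    rw [show (((3 : ℕ) : ℤ) - ((2 : ℕ) : ℤ)) = 1 by norm_num, zpow_one]
  have h5 : (x 0 / x 1) ^ (((4 : ℕ) : ℤ) - ((2 : ℕ) : ℤ)) = (x 0 / x 1) ^ 2 := by
    rw [show (((4 : ℕ) : ℤ) - ((2 : ℕ) : ℤ)) = ((2 : ℕ) : ℤ) by norm_num, zpow_natCast]
  rw [h1, h2, h3, h4, h5]
  ring

theorem uni_of {x : Fin 2 → ℂ} (h0 : ∀ i, x i ≠ 0)
    (h : Multiset.map (fun i => ((starRingEnd ℂ) (x i))⁻¹) Finset.univ.val = Multiset.map x Finset.univ.val) :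
    Uni x := by
  refine ⟨h0, ?_⟩
  have hn : ∀ i, ((starRingEnd ℂ) (x i))⁻¹ = x i → ‖x i‖ = 1 := by
    intro i hi
    have h1 : ‖x i‖⁻¹ = ‖x i‖ := by
      have := congrArg norm hi
      rwa [norm_inv, RCLike.norm_conj] at this
    have h2 : 0 < ‖x i‖ := norm_pos_iff.2 (h0 i)
    have h4 : ‖x i‖ * ‖x i‖⁻¹ = 1 := mul_inv_cancel₀ h2.ne'
    rw [h1] at h4
    nlinarith
  have hm : ∀ j, ∃ i, ((starRingEnd ℂ) (x i))⁻¹ = x j := by
    intro j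
    have h1 : x j ∈ Multiset.map x Finset.univ.val := Multiset.mem_map_of_mem _ (Finset.mem_univ j)
    rw [← h, Multiset.mem_map] at h1
    obtain ⟨i, _, hi⟩ := h1
    exact ⟨i, hi⟩
  obtain ⟨i, hi⟩ := hm 0
  fin_cases i
  · -- the first one is tempered
    have h1 : ‖x 0‖ = 1 := hn 0 hi
    left
    obtain ⟨j, hj⟩ := hm 1
    intro l
    fin_cases l
    · exact h1
    · fin_cases j
      · have h2 : x 1 = x 0 := by
          rw [← hj]
          exact hi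
        show ‖x 1‖ = 1
        rw [h2, h1]
      · exact hn 1 hj
  · right
    have h2 : ((starRingEnd ℂ) (x 1))⁻¹ = x 0 := hi
    rw [← h2]
    refine inv_mul_cancel₀ ?_
    exact (map_ne_zero _).2 (h0 1)

theorem uni_pow {x : Fin 2 → ℂ} (h : Uni x) (n : ℕ) : Uni fun i => x i ^ n := by
  refine ⟨fun i => pow_ne_zero _ (h.1 i), ?_⟩
  rcases h.2 with h1 | h1
  · left
    intro i
    rw [norm_pow, h1 i, one_pow]
  · right
    rw [map_pow, ← mul_pow, h1, one_pow]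

/-- in the second case the quotient of the parameters is a positive real number -/
theorem quot_real {x : Fin 2 → ℂ} (h : x 0 * (starRingEnd ℂ) (x 1) = 1) :
    x 0 / x 1 = ((‖x 0‖ ^ 2 : ℝ) : ℂ) ∧ (x 0 / x 1)⁻¹ = ((‖x 1‖ ^ 2 : ℝ) : ℂ) := by
  have h0 : x 0 ≠ 0 := left_ne_zero_of_mul_eq_one h
  have h1' : (starRingEnd ℂ) (x 1) ≠ 0 := right_ne_zero_of_mul_eq_one h
  have h1 : x 1 ≠ 0 := (map_ne_zero _).1 h1'
  have hc : (starRingEnd ℂ) (x 0) * x 1 = 1 := by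
    have := congrArg (starRingEnd ℂ) h
    simpa using this
  constructor
  · rw [div_eq_iff h1]
    have e : ((‖x 0‖ ^ 2 : ℝ) : ℂ) = x 0 * (starRingEnd ℂ) (x 0) := by
      rw [Complex.mul_conj, Complex.normSq_eq_norm_sq]
    rw [e, mul_assoc, hc, mul_one]
  · rw [inv_div, div_eq_iff h0]
    have e : ((‖x 1‖ ^ 2 : ℝ) : ℂ) = x 1 * (starRingEnd ℂ) (x 1) := by
      rw [Complex.mul_conj, Complex.normSq_eq_norm_sq]
    rw [e, mul_assoc, mul_comm ((starRingEnd ℂ) (x 1)), h, mul_one]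

theorem symTr_real {x : Fin 2 → ℂ} (h : Uni x) {a : ℕ} (ha : a = 1 ∨ a = 2) :
    symTr a x = (((symTr a x).re : ℝ) : ℂ) := by
  have key : (starRingEnd ℂ) (symTr a x) = symTr a x := by
    rcases h.2 with h1 | h1
    · have hz : ‖x 0 / x 1‖ = 1 := by rw [norm_div, h1, h1, div_one]
      have hc : (starRingEnd ℂ) (x 0 / x 1) = (x 0 / x 1)⁻¹ := by
        rw [Complex.inv_def, Complex.normSq_eq_norm_sq, hz]
        simp
      have hc2 : (starRingEnd ℂ) ((x 0 / x 1)⁻¹) = x 0 / x 1 := by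
        rw [map_inv₀, hc, inv_inv]
      rcases ha with rfl | rfl
      · rw [symTr_one, map_add, map_add, map_one, hc, hc2]
        ring
      · rw [symTr_two]
        simp only [map_add, map_pow, map_one, hc, hc2]
        ring
    · obtain ⟨e1, e2⟩ := quot_real h1
      rcases ha with rfl | rfl
      · rw [symTr_one, e2, e1]
        simp only [map_add, map_one, Complex.conj_ofReal]
      · rw [symTr_two, e2, e1]
        simp only [map_add, map_pow, map_one, Complex.conj_ofReal]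
  exact (Complex.conj_eq_iff_re.1 key).symm

/-- `A^4 = Ad^2 - Ad - 1` -/
theorem symTr_rel {x : Fin 2 → ℂ} (h0 : ∀ i, x i ≠ 0) : symTr 2 x = symTr 1 x ^ 2 - symTr 1 x - 1 := by
  have ha := h0 0
  have hb := h0 1
  rw [symTr_one, symTr_two]
  field_simp
  ring

theorem re_rel {x : Fin 2 → ℂ} (h : Uni x) :
    (symTr 2 x).re = (symTr 1 x).re ^ 2 - (symTr 1 x).re - 1 := by
  have h1 := symTr_rel h.1
  rw [symTr_real h (Or.inl rfl)] at h1
  have h2 := congrArg Complex.re h1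
  rw [show (((symTr 1 x).re : ℂ) ^ 2 - ((symTr 1 x).re : ℂ) - 1) =
    (((symTr 1 x).re ^ 2 - (symTr 1 x).re - 1 : ℝ) : ℂ) by push_cast; ring, Complex.ofReal_re] at h2
  exact h2

/-- a nontempered component has `Ad ≥ 3` -/
theorem three_le {x : Fin 2 → ℂ} (h : Uni x) (hn : ¬ ∀ i, ‖x i‖ = 1) : 3 ≤ (symTr 1 x).re := by
  rcases h.2 with h1 | h1
  · exact absurd h1 hn
  · obtain ⟨e1, e2⟩ := quot_real h1
    have e3 : symTr 1 x = ((‖x 1‖ ^ 2 + 1 + ‖x 0‖ ^ 2 : ℝ) : ℂ) := by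
      rw [symTr_one, e2, e1]
      push_cast
      ring
    rw [e3, Complex.ofReal_re]
    have h2 : ‖x 0‖ * ‖x 1‖ = 1 := by
      have := congrArg norm h1
      rwa [norm_mul, RCLike.norm_conj, norm_one] at this
    nlinarith [sq_nonneg (‖x 0‖ - ‖x 1‖)]

/-- the larger absolute value -/
noncomputable def mx (x : Fin 2 → ℂ) : ℝ := max ‖x 0‖ ‖x 1‖

theorem one_le_mx {x : Fin 2 → ℂ} (h : Uni x) : 1 ≤ mx x := by
  rcases h.2 with h1 | h1
  · unfold mx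
    rw [h1 0]
    exact le_max_left _ _
  · have h2 : ‖x 0‖ * ‖x 1‖ = 1 := by
      have := congrArg norm h1
      rwa [norm_mul, RCLike.norm_conj, norm_one] at this
    by_contra hcon
    push Not at hcon
    have h3 : ‖x 0‖ < 1 := (le_max_left _ _).trans_lt hcon
    have h4 : ‖x 1‖ < 1 := (le_max_right _ _).trans_lt hcon
    have h5 : ‖x 0‖ * ‖x 1‖ < 1 := by
      nlinarith [norm_nonneg (x 0), norm_nonneg (x 1)]
    linarith

theorem mx_pow (x : Fin 2 → ℂ) (n : ℕ) : mx (fun i => x i ^ n) = mx x ^ n := by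
  unfold mx
  simp only [norm_pow]
  rcases le_total ‖x 0‖ ‖x 1‖ with h | h
  · rw [max_eq_right h, max_eq_right (pow_le_pow_left₀ (norm_nonneg _) h n)]
  · rw [max_eq_left h, max_eq_left (pow_le_pow_left₀ (norm_nonneg _) h n)]

theorem norm_quot_le {x : Fin 2 → ℂ} (h : Uni x) :
    ‖x 0 / x 1‖ ≤ mx x ^ 2 ∧ ‖(x 0 / x 1)⁻¹‖ ≤ mx x ^ 2 := by
  have hm := one_le_mx h
  rcases h.2 with h1 | h1
  · have hz : ‖x 0 / x 1‖ = 1 := by rw [norm_div, h1, h1, div_one]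
    rw [norm_inv, hz, inv_one]
    exact ⟨one_le_pow₀ hm, one_le_pow₀ hm⟩
  · obtain ⟨e1, e2⟩ := quot_real h1
    rw [e2, e1, Complex.norm_real, Complex.norm_real, Real.norm_of_nonneg (by positivity),
      Real.norm_of_nonneg (by positivity)]
    exact ⟨pow_le_pow_left₀ (norm_nonneg _) (le_max_left _ _) 2, pow_le_pow_left₀ (norm_nonneg _) (le_max_right _ _) 2⟩

theorem norm_symTr_le {x : Fin 2 → ℂ} (h : Uni x) {a : ℕ} (ha : a = 1 ∨ a = 2) : ‖symTr a x‖ ≤ 5 * mx x ^ 4 := by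
  obtain ⟨h1, h2⟩ := norm_quot_le h
  have hm := one_le_mx h
  have hm2 : 1 ≤ mx x ^ 2 := one_le_pow₀ hm
  have hm4 : mx x ^ 2 ≤ mx x ^ 4 := pow_le_pow_right₀ hm (by norm_num)
  rcases ha with rfl | rfl
  · rw [symTr_one]
    refine (norm_add₃_le).trans ?_
    rw [norm_one]
    linarith
  · rw [symTr_two]
    have h3 : ‖(x 0 / x 1) ^ 2‖ ≤ mx x ^ 4 := by
      rw [norm_pow]
      calc ‖x 0 / x 1‖ ^ 2 ≤ (mx x ^ 2) ^ 2 := pow_le_pow_left₀ (norm_nonneg _) h1 2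
        _ = mx x ^ 4 := by ring
    have h4 : ‖((x 0 / x 1)⁻¹) ^ 2‖ ≤ mx x ^ 4 := by
      rw [norm_pow]
      calc ‖(x 0 / x 1)⁻¹‖ ^ 2 ≤ (mx x ^ 2) ^ 2 := pow_le_pow_left₀ (norm_nonneg _) h2 2
        _ = mx x ^ 4 := by ring
    have e1 := norm_add_le (((x 0 / x 1)⁻¹) ^ 2 + (x 0 / x 1)⁻¹ + 1 + x 0 / x 1) ((x 0 / x 1) ^ 2)
    have e2 := norm_add_le (((x 0 / x 1)⁻¹) ^ 2 + (x 0 / x 1)⁻¹ + 1) (x 0 / x 1)
    have e3 := norm_add_le (((x 0 / x 1)⁻¹) ^ 2 + (x 0 / x 1)⁻¹) 1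
    have e4 := norm_add_le (((x 0 / x 1)⁻¹) ^ 2) ((x 0 / x 1)⁻¹)
    rw [norm_one] at e3
    linarith

theorem mx_eight_le {x : Fin 2 → ℂ} (h : Uni x) : mx x ^ 8 ≤ ‖symTr 2 x‖ ^ 2 + 1 := by
  rcases h.2 with h1 | h1
  · have : mx x = 1 := by
      unfold mx
      rw [h1, h1, max_self]
    rw [this]
    nlinarith [sq_nonneg ‖symTr 2 x‖]
  · obtain ⟨e1, e2⟩ := quot_real h1
    have e3 : symTr 2 x = (((‖x 1‖ ^ 2) ^ 2 + ‖x 1‖ ^ 2 + 1 + ‖x 0‖ ^ 2 + (‖x 0‖ ^ 2) ^ 2 : ℝ) : ℂ) := by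
      rw [symTr_two, e2, e1]
      push_cast
      ring
    have h2 : mx x ^ 4 ≤ ‖symTr 2 x‖ := by
      rw [e3, Complex.norm_real, Real.norm_of_nonneg (by positivity)]
      unfold mx
      rcases le_total ‖x 0‖ ‖x 1‖ with h3 | h3
      · rw [max_eq_right h3]
        nlinarith [sq_nonneg ‖x 0‖, sq_nonneg ‖x 1‖, sq_nonneg (‖x 0‖ ^ 2)]
      · rw [max_eq_left h3]
        nlinarith [sq_nonneg ‖x 0‖, sq_nonneg ‖x 1‖, sq_nonneg (‖x 1‖ ^ 2)]
    have h3 : 0 ≤ mx x ^ 4 := by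
      have := one_le_mx h
      positivity
    calc mx x ^ 8 = (mx x ^ 4) ^ 2 := by ring
      _ ≤ ‖symTr 2 x‖ ^ 2 := pow_le_pow_left₀ h3 h2 2
      _ ≤ _ := by linarith

end Pool.Agent.Q164.RM
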