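import Mathlib
import Pool.Agent.Q164.RM.Defs

/-! A nonvanishing `L`-function has a bounded logarithm near `s = 1`; the first coefficients. -/

set_option autoImplicit false

namespace Pool.Agent.Q164.RM

open Complex Filter Topology NumberField IsDedekindDomain Pool.Agent.TH861.GL3
open Pool.Agent.Y816.GL3R (CS cs_norm cs_mono cs_summ cs_diff)
open Pool.Agent.Q251.GN (bdd_log)

variable {K : Type*} [Field K] [NumberField K] {S : Finset (HeightOneSpectrum (𝓞 K))}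

/-- **Boundedness of `∑_v c_v q_v^{-s}` near `s = 1`** for an Euler product which does not vanish at `s = 1` -/
theorem first_bdd {c : PL S × ℕ → ℂ} {B : PL S → ℝ} (hB : Summable B) {ρ : ℝ} (hρ0 : 0 ≤ ρ) (hρ1 : ρ < 1)
    (hc1 : ∀ σ : ℝ, 1 < σ → Summable fun v : PL S => ‖c (v, 0)‖ * (qq v.1 : ℝ) ^ (-σ))
    (hcB : ∀ v k, ‖c (v, k + 1)‖ * ((qq v.1 : ℝ)⁻¹) ^ (k + 2) ≤ B v * ρ ^ k)
    {L : ℂ → ℂ} (hL : ContinuousAt L 1) (h1 : L 1 ≠ 0)
    (he : ∀ s : ℂ, 1 < s.re → L s = Complex.exp (∑' x : PL S × ℕ, c x * (((qq x.1.1 : ℕ) : ℂ) ^ (-s)) ^ (x.2 + 1))) :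
    ∃ C : ℝ, 0 ≤ C ∧ ∀ σ : ℝ, 1 < σ → σ ≤ 2 → ‖∑' v : PL S, c (v, 0) * (((qq v.1 : ℝ) ^ (-σ) : ℝ) : ℂ)‖ ≤ C := by
  have hB0 : ∀ v, 0 ≤ B v := by
    intro v
    have h2 := hcB v 0
    have : 0 ≤ ‖c (v, 0 + 1)‖ * ((qq v.1 : ℝ)⁻¹) ^ (0 + 2) := by positivity
    simpa using this.trans h2
  -- absolute convergence
  have hexp : ∀ σ : ℝ, 1 ≤ σ → ∀ v : PL S, ∀ k : ℕ, Real.exp (-(σ * LL (v, k))) ≤ ((qq v.1 : ℝ)⁻¹) ^ (k + 1) := by
    intro σ hσ v k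
    rw [rexp_LL]
    have hq := qq_pos v.1
    refine pow_le_pow_left₀ (by positivity) ?_ _
    rw [← Real.rpow_neg_one]
    exact Real.rpow_le_rpow_of_exponent_le (one_lt_qq v.1).le (by linarith)
  have hgeo := hasSum_geometric_of_lt_one hρ0 hρ1
  have hrow : ∀ σ : ℝ, 1 ≤ σ → ∀ v : PL S, ∀ k : ℕ,
      ‖c (v, k + 1)‖ * Real.exp (-(σ * LL (v, k + 1))) ≤ B v * ρ ^ k := by
    intro σ hσ v k
    refine le_trans ?_ (hcB v k)
    exact mul_le_mul_of_nonneg_left (hexp σ hσ v (k + 1)) (norm_nonneg _)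
  have hzero : ∀ (σ : ℝ) (v : PL S), Real.exp (-(σ * LL (v, 0))) = (qq v.1 : ℝ) ^ (-σ) := by
    intro σ v
    rw [rexp_LL]
    simp
  have hsum : ∀ σ : ℝ, 1 < σ → Summable fun x : PL S × ℕ => ‖c x‖ * Real.exp (-(σ * LL x)) := by
    intro σ hσ
    rw [summable_prod_of_nonneg (fun x => by positivity)]
    have hrs : ∀ v : PL S, Summable fun k : ℕ => ‖c (v, k)‖ * Real.exp (-(σ * LL (v, k))) := by
      intro v
      rw [← summable_nat_add_iff 1]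
      exact Summable.of_nonneg_of_le (fun k => by positivity) (hrow σ hσ.le v) (hgeo.summable.mul_left (B v))
    refine ⟨hrs, ?_⟩
    refine Summable.of_nonneg_of_le (fun v => tsum_nonneg fun k => by positivity) (fun v => ?_)
      ((hc1 σ hσ).add (hB.mul_right (1 - ρ)⁻¹))
    rw [(hrs v).tsum_eq_zero_add, hzero]
    refine add_le_add le_rfl ?_
    have h2 := Summable.tsum_le_tsum (hrow σ hσ.le v) ((summable_nat_add_iff 1).2 (hrs v))
      (hgeo.summable.mul_left (B v))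
    rw [tsum_mul_left, hgeo.tsum_eq] at h2
    exact h2
  -- continuity
  set f : ℂ → ℂ := fun s => ∑' x : PL S × ℕ, c x * (((qq x.1.1 : ℕ) : ℂ) ^ (-s)) ^ (x.2 + 1) with hf
  have hfe : f = CS c LL := by
    funext s
    rw [hf]
    simp only [CS]
    refine tsum_congr fun x => ?_
    rw [← exp_LL]
  have hfc : ContinuousOn (fun σ : ℝ => f σ) (Set.Ioi 1) := by
    rw [hfe]
    have h2 := (cs_diff (b := c) (L := LL) LL_nonneg (σ := 1) hsum).continuousOn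
    refine h2.comp Complex.continuous_ofReal.continuousOn fun σ hσ => ?_
    show 1 < ((σ : ℂ)).re
    rw [Complex.ofReal_re]
    exact hσ
  obtain ⟨C, hC0, hC⟩ := bdd_log (f := fun σ : ℝ => f σ) hfc hL h1 fun σ hσ => he σ (by simpa using hσ)
  have hBs : 0 ≤ ∑' v, B v := tsum_nonneg hB0
  have hinv : 0 ≤ (1 - ρ)⁻¹ := inv_nonneg.2 (by linarith)
  refine ⟨C + (1 - ρ)⁻¹ * ∑' v, B v, by positivity, fun σ h2 h3 => ?_⟩
  have h4 := hC σ h2 h3
  rw [hfe] at h4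
  have hs := hsum σ h2
  have hsc : Summable fun x : PL S × ℕ => c x * cexp (-((σ : ℂ) * LL x)) := by
    refine Summable.of_norm (hs.congr fun x => ?_)
    rw [cs_norm]
    simp
  have hfib := hsc.prod_factor
  have e1 : CS c LL (σ : ℂ) = ∑' v : PL S, ∑' k : ℕ, c (v, k) * cexp (-((σ : ℂ) * LL (v, k))) := by
    unfold CS
    exact hsc.tsum_prod
  have e0 : ∀ v : PL S, cexp (-((σ : ℂ) * LL (v, 0))) = (((qq v.1 : ℝ) ^ (-σ) : ℝ) : ℂ) := by
    intro v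
    rw [← hzero]
    push_cast
    rfl
  have hfirst : Summable fun v : PL S => c (v, 0) * (((qq v.1 : ℝ) ^ (-σ) : ℝ) : ℂ) := by
    refine Summable.of_norm ((hc1 σ h2).congr fun v => ?_)
    rw [norm_mul, Complex.norm_real, Real.norm_of_nonneg (Real.rpow_nonneg (qq_pos v.1).le _)]
  have e2 : ∀ v : PL S, ∑' k : ℕ, c (v, k) * cexp (-((σ : ℂ) * LL (v, k))) =
      c (v, 0) * (((qq v.1 : ℝ) ^ (-σ) : ℝ) : ℂ) + ∑' k : ℕ, c (v, k + 1) * cexp (-((σ : ℂ) * LL (v, k + 1))) := by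
    intro v
    rw [(hfib v).tsum_eq_zero_add, e0]
  have htn : ∀ v : PL S, ‖∑' k : ℕ, c (v, k + 1) * cexp (-((σ : ℂ) * LL (v, k + 1)))‖ ≤ (1 - ρ)⁻¹ * B v := by
    intro v
    have h5 : ∀ k : ℕ, ‖c (v, k + 1) * cexp (-((σ : ℂ) * LL (v, k + 1)))‖ ≤ B v * ρ ^ k := by
      intro k
      have h6 := hrow σ h2.le v k
      have h7 : ‖c (v, k + 1) * cexp (-((σ : ℂ) * LL (v, k + 1)))‖ =
          ‖c (v, k + 1)‖ * Real.exp (-(σ * LL (v, k + 1))) := by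
        rw [norm_mul, Complex.norm_exp]
        simp
      rw [h7]
      exact h6
    have h6 := tsum_of_norm_bounded (hgeo.mul_left (B v)) h5
    refine h6.trans (le_of_eq ?_)
    ring
  have htail : Summable fun v : PL S => ∑' k : ℕ, c (v, k + 1) * cexp (-((σ : ℂ) * LL (v, k + 1))) :=
    Summable.of_norm_bounded (hB.mul_left (1 - ρ)⁻¹) htn
  have e3 : CS c LL (σ : ℂ) = ∑' v : PL S, c (v, 0) * (((qq v.1 : ℝ) ^ (-σ) : ℝ) : ℂ) +
      ∑' v : PL S, ∑' k : ℕ, c (v, k + 1) * cexp (-((σ : ℂ) * LL (v, k + 1))) := by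
    rw [e1, ← hfirst.tsum_add htail]
    exact tsum_congr e2
  have e4 : ‖∑' v : PL S, ∑' k : ℕ, c (v, k + 1) * cexp (-((σ : ℂ) * LL (v, k + 1)))‖ ≤
      (1 - ρ)⁻¹ * ∑' v, B v := by
    rw [← tsum_mul_left]
    exact tsum_of_norm_bounded (hB.mul_left (1 - ρ)⁻¹).hasSum htn
  have e5 : ∑' v : PL S, c (v, 0) * (((qq v.1 : ℝ) ^ (-σ) : ℝ) : ℂ) = CS c LL (σ : ℂ) -
      ∑' v : PL S, ∑' k : ℕ, c (v, k + 1) * cexp (-((σ : ℂ) * LL (v, k + 1))) := by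
    rw [e3]
    ring
  rw [e5]
  exact (norm_sub_le _ _).trans (add_le_add h4 e4)

end Pool.Agent.Q164.RM
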