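import Mathlib
import Pool.Agent.Q164.RM.Log
import Pool.Agent.Q164.RM.Loc

/-! Sums over the places which are bounded near `σ = 1`. -/

set_option autoImplicit false

namespace Pool.Agent.Q164.RM

open Complex Filter Topology NumberField IsDedekindDomain Pool.Agent.TH861.GL3 Pool.Agent.Q251.GN

variable {K : Type*} [Field K] [NumberField K] {S : Finset (HeightOneSpectrum (𝓞 K))}

/-- `∑_v f(v) q_v^{-σ}` converges absolutely for `σ > 1` and is bounded for `σ` near `1` -/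
def Bdd (f : PL S → ℝ) : Prop :=
  (∀ σ : ℝ, 1 < σ → Summable fun v : PL S => f v * (qq v.1 : ℝ) ^ (-σ)) ∧
    ∃ C : ℝ, 0 ≤ C ∧ ∀ σ : ℝ, 1 < σ → σ ≤ 2 → |∑' v : PL S, f v * (qq v.1 : ℝ) ^ (-σ)| ≤ C

theorem Bdd.zero : Bdd (fun _ : PL S => (0 : ℝ)) := by
  refine ⟨fun σ _ => by simpa using summable_zero, 0, le_rfl, fun σ _ _ => ?_⟩
  simp

theorem Bdd.add {f g : PL S → ℝ} (hf : Bdd f) (hg : Bdd g) : Bdd fun v => f v + g v := by
  obtain ⟨h1, C, hC0, hC⟩ := hf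
  obtain ⟨h2, D, hD0, hD⟩ := hg
  refine ⟨fun σ hσ => ((h1 σ hσ).add (h2 σ hσ)).congr fun v => by ring, C + D, by positivity, fun σ a b => ?_⟩
  have e : ∑' v : PL S, (f v + g v) * (qq v.1 : ℝ) ^ (-σ) =
      ∑' v : PL S, f v * (qq v.1 : ℝ) ^ (-σ) + ∑' v : PL S, g v * (qq v.1 : ℝ) ^ (-σ) := by
    rw [← (h1 σ a).tsum_add (h2 σ a)]
    exact tsum_congr fun v => by ring
  rw [e]
  exact (abs_add_le _ _).trans (add_le_add (hC σ a b) (hD σ a b))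

theorem Bdd.mul {f : PL S → ℝ} (hf : Bdd f) (c : ℝ) : Bdd fun v => c * f v := by
  obtain ⟨h1, C, hC0, hC⟩ := hf
  refine ⟨fun σ hσ => ((h1 σ hσ).mul_left c).congr fun v => by ring, |c| * C, by positivity, fun σ a b => ?_⟩
  have e : ∑' v : PL S, (c * f v) * (qq v.1 : ℝ) ^ (-σ) = c * ∑' v : PL S, f v * (qq v.1 : ℝ) ^ (-σ) := by
    rw [← tsum_mul_left]
    exact tsum_congr fun v => by ring
  rw [e, abs_mul]
  exact mul_le_mul_of_nonneg_left (hC σ a b) (abs_nonneg _)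

theorem Bdd.congr {f g : PL S → ℝ} (hf : Bdd f) (h : ∀ v, g v = f v) : Bdd g := by
  have : g = f := funext h
  rw [this]
  exact hf

theorem Bdd.sum {ι : Type*} (s : Finset ι) {f : ι → PL S → ℝ} (hf : ∀ i ∈ s, Bdd (f i)) :
    Bdd fun v => ∑ i ∈ s, f i v := by
  classical
  induction s using Finset.induction_on with
  | empty => exact Bdd.zero.congr fun v => by simp
  | insert a s ha ih =>
    refine ((hf a (Finset.mem_insert_self a s)).add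
      (ih fun i hi => hf i (Finset.mem_insert_of_mem hi))).congr fun v => ?_
    rw [Finset.sum_insert ha]

theorem rpow_eight {q : ℝ} (hq : 0 < q) : (q ^ (7 / 64 : ℝ)) ^ 8 = q ^ (7 / 8 : ℝ) := by
  rw [← Real.rpow_natCast, ← Real.rpow_mul hq.le]
  norm_num

/-- from `L`-functions to sums over places -/
theorem bdd_of {t : PL S → ℕ → ℂ} {f : PL S → ℝ} {M : PL S → ℝ} (hf : ∀ v, t v 1 = (f v : ℂ))
    (hM1 : ∀ v, 1 ≤ M v) (hM2 : ∀ v, M v ≤ (qq v.1 : ℝ) ^ (7 / 64 : ℝ))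
    (hMs : ∀ σ : ℝ, 1 < σ → Summable fun v : PL S => M v ^ 8 * (qq v.1 : ℝ) ^ (-σ))
    (ht : ∀ v n, ‖t v n‖ ≤ 26 * (M v ^ 8) ^ n) (hN : NonzeroAtOne t) : Bdd f := by
  obtain ⟨L, hL, hL1, he⟩ := hN
  have hf1 : ∀ v, |f v| ≤ 26 * M v ^ 8 := by
    intro v
    have h1 := ht v 1
    rw [hf, Complex.norm_real, pow_one] at h1
    exact h1
  have hq1 : ∀ v : PL S, M v ^ 8 / (qq v.1 : ℝ) ≤ (qq v.1 : ℝ) ^ (-(1 / 8) : ℝ) := by
    intro v
    have hq := qq_pos v.1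
    have h1 : M v ^ 8 ≤ (qq v.1 : ℝ) ^ (7 / 8 : ℝ) := by
      rw [← rpow_eight hq]
      exact pow_le_pow_left₀ (zero_le_one.trans (hM1 v)) (hM2 v) 8
    rw [div_le_iff₀ hq]
    refine h1.trans (le_of_eq ?_)
    nth_rewrite 3 [← Real.rpow_one (qq v.1 : ℝ)]
    rw [← Real.rpow_add hq]
    norm_num
  have hq2 : ∀ v : PL S, (qq v.1 : ℝ) ^ (-(1 / 8) : ℝ) ≤ (2 : ℝ) ^ (-(1 / 8) : ℝ) := fun v =>
    qq_rpow_le v.1 (by norm_num)
  set ρ : ℝ := (2 : ℝ) ^ (-(1 / 8) : ℝ) with hρ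
  have hρ0 : 0 ≤ ρ := by positivity
  have hρ1 : ρ < 1 := two_rpow_lt (by norm_num)
  have hx0 : ∀ v : PL S, 0 ≤ M v ^ 8 / (qq v.1 : ℝ) := by
    intro v
    have := hM1 v
    have := qq_pos v.1
    positivity
  have hsummB : Summable fun v : PL S => 26 * (M v ^ 8 / (qq v.1 : ℝ)) ^ 2 := by
    refine Summable.of_nonneg_of_le (fun v => by positivity) (fun v => ?_) ((hMs (9 / 8) (by norm_num)).mul_left 26)
    have hq := qq_pos v.1
    have hM := hM1 v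
    have e : (qq v.1 : ℝ) ^ (-(9 / 8) : ℝ) = (qq v.1 : ℝ)⁻¹ * (qq v.1 : ℝ) ^ (-(1 / 8) : ℝ) := by
      rw [← Real.rpow_neg_one, ← Real.rpow_add hq]
      norm_num
    rw [e, sq]
    have h1 := mul_le_mul_of_nonneg_left (hq1 v) (hx0 v)
    have e2 : M v ^ 8 * ((qq v.1 : ℝ)⁻¹ * (qq v.1 : ℝ) ^ (-(1 / 8) : ℝ)) =
        M v ^ 8 / (qq v.1 : ℝ) * (qq v.1 : ℝ) ^ (-(1 / 8) : ℝ) := by
      rw [div_eq_mul_inv]
      ring
    rw [e2]
    linarith
  have hres := first_bdd (c := fun x : PL S × ℕ => t x.1 (x.2 + 1) / ((x.2 : ℂ) + 1))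
    (B := fun v => 26 * (M v ^ 8 / (qq v.1 : ℝ)) ^ 2) hsummB hρ0 hρ1 ?_ ?_ hL hL1 (fun s hs => he s hs)
  · obtain ⟨C, hC0, hC⟩ := hres
    have hsm : ∀ σ : ℝ, 1 < σ → Summable fun v : PL S => f v * (qq v.1 : ℝ) ^ (-σ) := by
      intro σ hσ
      refine Summable.of_norm_bounded ((hMs σ hσ).mul_left 26) fun v => ?_
      rw [norm_mul, Real.norm_eq_abs, Real.norm_of_nonneg (Real.rpow_nonneg (qq_pos v.1).le _), ← mul_assoc]
      exact mul_le_mul_of_nonneg_right (hf1 v) (Real.rpow_nonneg (qq_pos v.1).le _)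
    refine ⟨hsm, C, hC0, fun σ h1 h2 => ?_⟩
    have h3 := hC σ h1 h2
    have e : ∑' v : PL S, t v (0 + 1) / (((0 : ℕ) : ℂ) + 1) * (((qq v.1 : ℝ) ^ (-σ) : ℝ) : ℂ) =
        ((∑' v : PL S, f v * (qq v.1 : ℝ) ^ (-σ) : ℝ) : ℂ) := by
      rw [Complex.ofReal_tsum]
      refine tsum_congr fun v => ?_
      rw [zero_add, hf]
      push_cast
      simp
    rw [e, Complex.norm_real] at h3
    exact h3
  · intro σ hσ
    refine Summable.of_nonneg_of_le (fun v => by positivity) (fun v => ?_) ((hMs σ hσ).mul_left 26)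
    have h1 : ‖t v (0 + 1) / (((0 : ℕ) : ℂ) + 1)‖ ≤ 26 * M v ^ 8 := by
      rw [zero_add, hf]
      simpa using hf1 v
    rw [← mul_assoc]
    exact mul_le_mul_of_nonneg_right h1 (Real.rpow_nonneg (qq_pos v.1).le _)
  · intro v k
    have hq := qq_pos v.1
    have hM := hM1 v
    have h1 : ‖t v (k + 1 + 1) / (((k + 1 : ℕ) : ℂ) + 1)‖ ≤ 26 * (M v ^ 8) ^ (k + 2) := by
      rw [norm_div]
      have h2 : (1 : ℝ) ≤ ‖(((k + 1 : ℕ) : ℂ) + 1)‖ := by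
        have e : (((k + 1 : ℕ) : ℂ) + 1) = (((k : ℝ) + 2 : ℝ) : ℂ) := by
          push_cast
          ring
        rw [e, Complex.norm_real, Real.norm_of_nonneg (by positivity)]
        have : (0 : ℝ) ≤ k := Nat.cast_nonneg k
        linarith
      exact (div_le_self (norm_nonneg _) h2).trans (ht v (k + 2))
    have h3 : (M v ^ 8 / (qq v.1 : ℝ)) ^ k ≤ ρ ^ k := pow_le_pow_left₀ (hx0 v) ((hq1 v).trans (hq2 v)) k
    calc ‖t v (k + 1 + 1) / (((k + 1 : ℕ) : ℂ) + 1)‖ * ((qq v.1 : ℝ)⁻¹) ^ (k + 2)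
        ≤ 26 * (M v ^ 8) ^ (k + 2) * ((qq v.1 : ℝ)⁻¹) ^ (k + 2) :=
          mul_le_mul_of_nonneg_right h1 (by positivity)
      _ = 26 * (M v ^ 8 / (qq v.1 : ℝ)) ^ 2 * (M v ^ 8 / (qq v.1 : ℝ)) ^ k := by
          rw [div_eq_mul_inv, mul_assoc 26, ← mul_pow, mul_assoc, ← pow_add]
          ring_nf
      _ ≤ _ := mul_le_mul_of_nonneg_left h3 (by positivity)

end Pool.Agent.Q164.RM
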