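import Mathlib
import Pool.Agent.Q164.RM.Bdd

/-! The second moments of the traces of `Ad π` and `A^4 π` for a family of cusp forms. -/

set_option autoImplicit false

namespace Pool.Agent.Q164.RM

open Complex Filter Topology NumberField IsDedekindDomain Pool.Agent.TH861.GL3 Pool.Agent.Q251.GN

variable {K : Type*} [Field K] [NumberField K] {S : Finset (HeightOneSpectrum (𝓞 K))}

/-- the trace of `Ad π_v`, a real number -/
noncomputable def tu (α : PL S → Fin 2 → ℂ) (v : PL S) : ℝ := (symTr 1 (α v)).re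

/-- the trace of `A^4 π_v`, a real number -/
noncomputable def tw (α : PL S → Fin 2 → ℂ) (v : PL S) : ℝ := (symTr 2 (α v)).re

/-- one of the two traces -/
noncomputable def tr (a : ℕ) (α : PL S → Fin 2 → ℂ) (v : PL S) : ℝ := (symTr a (α v)).re

theorem CuspidalGL2.uni {α : PL S → Fin 2 → ℂ} (h : CuspidalGL2 α) (v : PL S) : Uni (α v) :=
  uni_of (h.unitary v).1 (h.unitary v).2

theorem CuspidalGL2.mx_le {α : PL S → Fin 2 → ℂ} (h : CuspidalGL2 α) (v : PL S) :
    mx (α v) ≤ (qq v.1 : ℝ) ^ (7 / 64 : ℝ) := max_le (h.kim_sarnak v 0) (h.kim_sarnak v 1)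

theorem CuspidalGL2.sum_mx {α : PL S → Fin 2 → ℂ} (h : CuspidalGL2 α) {σ : ℝ} (hσ : 1 < σ) :
    Summable fun v : PL S => mx (α v) ^ 8 * (qq v.1 : ℝ) ^ (-σ) := by
  have h1 : Summable fun v : PL S => ‖symTr 2 (α v)‖ ^ 2 * (qq v.1 : ℝ) ^ (-σ) := by
    have h2 := (h.summable σ hσ).comp_injective (i := fun v : PL S => (v, 0)) fun a b hab => by simpa using hab
    refine h2.congr fun v => ?_
    simp
  refine Summable.of_nonneg_of_le (fun v => ?_) (fun v => ?_) (h1.add (summable_qq hσ))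
  · have := one_le_mx (h.uni v)
    have := qq_pos v.1
    positivity
  · have h2 := mul_le_mul_of_nonneg_right (mx_eight_le (h.uni v)) (Real.rpow_nonneg (qq_pos v.1).le (-σ))
    linarith

variable {α β : PL S → Fin 2 → ℂ}

theorem pow_pow_eq (x : Fin 2 → ℂ) (n : ℕ) : mx (fun i => x i ^ n) ^ 4 = (mx x ^ 4) ^ n := by
  rw [mx_pow]
  ring

/-- the first moments -/
theorem bdd_single (h : CuspidalGL2 α) {a : ℕ} (ha : a = 1 ∨ a = 2) : Bdd (tr a α) := by
  refine bdd_of (M := fun v => mx (α v)) (t := fun v n => symTr a fun i => α v i ^ n) (fun v => ?_)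
    (fun v => one_le_mx (h.uni v)) h.mx_le (fun σ hσ => h.sum_mx hσ) (fun v n => ?_) (h.single a ha)
  · simp only [pow_one]
    exact symTr_real (h.uni v) ha
  · refine (norm_symTr_le (uni_pow (h.uni v) n) ha).trans ?_
    rw [pow_pow_eq]
    have h1 := one_le_mx (h.uni v)
    have h2 : (mx (α v) ^ 4) ^ n ≤ (mx (α v) ^ 8) ^ n :=
      pow_le_pow_left₀ (by positivity) (pow_le_pow_right₀ h1 (by norm_num)) n
    have h3 : 0 ≤ (mx (α v) ^ 4) ^ n := by positivity
    linarith

/-- the norms -/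
theorem bdd_self (h : CuspidalGL2 α) {a : ℕ} (ha : a = 1 ∨ a = 2) : Bdd fun v => tr a α v ^ 2 - 1 := by
  refine bdd_of (M := fun v => mx (α v)) (t := fun v n => symTr a (fun i => α v i ^ n) ^ 2 - 1) (fun v => ?_)
    (fun v => one_le_mx (h.uni v)) h.mx_le (fun σ hσ => h.sum_mx hσ) (fun v n => ?_) (h.self a ha)
  · simp only [pow_one]
    rw [symTr_real (h.uni v) ha]
    push_cast
    rfl
  · have h0 := norm_symTr_le (uni_pow (h.uni v) n) ha
    rw [pow_pow_eq] at h0
    have h1 := one_le_mx (h.uni v)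
    have h8 : (1 : ℝ) ≤ (mx (α v) ^ 8) ^ n := one_le_pow₀ (one_le_pow₀ h1)
    refine (norm_sub_le _ _).trans ?_
    rw [norm_pow, norm_one]
    have h2 : ‖symTr a fun i => α v i ^ n‖ ^ 2 ≤ (5 * (mx (α v) ^ 4) ^ n) ^ 2 :=
      pow_le_pow_left₀ (norm_nonneg _) h0 2
    have h3 : (5 * (mx (α v) ^ 4) ^ n) ^ 2 = 25 * (mx (α v) ^ 8) ^ n := by
      rw [mul_pow, ← pow_mul, ← pow_mul, ← pow_mul]
      ring_nf
    linarith

/-- `Ad × A^4` -/
theorem bdd_mixed (h : CuspidalGL2 α) : Bdd fun v => tr 1 α v * tr 2 α v := by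
  refine bdd_of (M := fun v => mx (α v))
    (t := fun v n => symTr 1 (fun i => α v i ^ n) * symTr 2 fun i => α v i ^ n) (fun v => ?_)
    (fun v => one_le_mx (h.uni v)) h.mx_le (fun σ hσ => h.sum_mx hσ) (fun v n => ?_) h.mixed
  · simp only [pow_one]
    rw [symTr_real (h.uni v) (Or.inl rfl), symTr_real (h.uni v) (Or.inr rfl)]
    push_cast
    rfl
  · have h0 := norm_symTr_le (uni_pow (h.uni v) n) (a := 1) (Or.inl rfl)
    have h0' := norm_symTr_le (uni_pow (h.uni v) n) (a := 2) (Or.inr rfl)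
    rw [pow_pow_eq] at h0 h0'
    have h1 := one_le_mx (h.uni v)
    have h8 : (0 : ℝ) ≤ (mx (α v) ^ 8) ^ n := by positivity
    rw [norm_mul]
    have h3 : (5 * (mx (α v) ^ 4) ^ n) * (5 * (mx (α v) ^ 4) ^ n) = 25 * (mx (α v) ^ 8) ^ n := by
      rw [← pow_mul, ← pow_mul]
      ring_nf
    have h4 := mul_le_mul h0 h0' (norm_nonneg _) (by positivity)
    linarith

/-- two different forms -/
theorem bdd_pair (h : CuspidalGL2 α) (h' : CuspidalGL2 β) (hne : Inequivalent α β) {a b : ℕ}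
    (ha : a = 1 ∨ a = 2) (hb : b = 1 ∨ b = 2) : Bdd fun v => tr a α v * tr b β v := by
  have hmax : ∀ v, mx (α v) ≤ max (mx (α v)) (mx (β v)) := fun v => le_max_left _ _
  have hmax' : ∀ v, mx (β v) ≤ max (mx (α v)) (mx (β v)) := fun v => le_max_right _ _
  have hone : ∀ v, 1 ≤ max (mx (α v)) (mx (β v)) := fun v => (one_le_mx (h.uni v)).trans (hmax v)
  refine bdd_of (M := fun v => max (mx (α v)) (mx (β v)))
    (t := fun v n => symTr a (fun i => α v i ^ n) * symTr b fun i => β v i ^ n) (fun v => ?_)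
    hone (fun v => max_le (h.mx_le v) (h'.mx_le v)) (fun σ hσ => ?_) (fun v n => ?_) (hne a b ha hb)
  · simp only [pow_one]
    rw [symTr_real (h.uni v) ha, symTr_real (h'.uni v) hb]
    push_cast
    rfl
  · refine Summable.of_nonneg_of_le (fun v => ?_) (fun v => ?_) ((h.sum_mx hσ).add (h'.sum_mx hσ))
    · have := hone v
      have := qq_pos v.1
      positivity
    · rw [← add_mul]
      refine mul_le_mul_of_nonneg_right ?_ (Real.rpow_nonneg (qq_pos v.1).le _)
      have h1 := one_le_mx (h.uni v)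
      have h2 := one_le_mx (h'.uni v)
      rcases le_total (mx (α v)) (mx (β v)) with h3 | h3
      · rw [max_eq_right h3]
        have : 0 ≤ mx (α v) ^ 8 := by positivity
        linarith
      · rw [max_eq_left h3]
        have : 0 ≤ mx (β v) ^ 8 := by positivity
        linarith
  · have h0 := norm_symTr_le (uni_pow (h.uni v) n) ha
    have h0' := norm_symTr_le (uni_pow (h'.uni v) n) hb
    rw [pow_pow_eq] at h0 h0'
    have h1 := one_le_mx (h.uni v)
    have h1' := one_le_mx (h'.uni v)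
    have h2 : (mx (α v) ^ 4) ^ n ≤ (max (mx (α v)) (mx (β v)) ^ 4) ^ n :=
      pow_le_pow_left₀ (by positivity) (pow_le_pow_left₀ (by positivity) (hmax v) 4) n
    have h2' : (mx (β v) ^ 4) ^ n ≤ (max (mx (α v)) (mx (β v)) ^ 4) ^ n :=
      pow_le_pow_left₀ (by positivity) (pow_le_pow_left₀ (by positivity) (hmax' v) 4) n
    have h3 := hone v
    have h8 : (0 : ℝ) ≤ (max (mx (α v)) (mx (β v)) ^ 8) ^ n := by positivity
    rw [norm_mul]
    have h5 : (5 * (max (mx (α v)) (mx (β v)) ^ 4) ^ n) * (5 * (max (mx (α v)) (mx (β v)) ^ 4) ^ n) =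
        25 * (max (mx (α v)) (mx (β v)) ^ 8) ^ n := by
      rw [← pow_mul, ← pow_mul]
      ring_nf
    have h4 := mul_le_mul (h0.trans (mul_le_mul_of_nonneg_left h2 (by norm_num)))
      (h0'.trans (mul_le_mul_of_nonneg_left h2' (by norm_num))) (norm_nonneg _) (by positivity)
    linarith

end Pool.Agent.Q164.RM
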