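import Mathlib
import Pool.Agent.Q164.RM.Mom

/-! From a majorant with a known mean to a bound for the number of violating forms. -/

set_option autoImplicit false

namespace Pool.Agent.Q164.RM

open Complex Filter Topology NumberField IsDedekindDomain Pool.Agent.TH861.GL3 Pool.Agent.Q251.GN

variable {K : Type*} [Field K] [NumberField K] {S : Finset (HeightOneSpectrum (𝓞 K))}

/-- along some values of `σ` tending to `1` the set `P` of places contains at least the proportion `δ` of all places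
(so `P` has upper Dirichlet density at least `δ`), and the forms are nontempered, on average over the forms, on at least
the proportion `β` of `P`; for instance this is so if each of the forms is nontempered on the proportion `β` of `P`, or
if at each place of `P` the proportion of the nontempered forms is at least `β` -/
def OftenViolate {ι : Type*} [Fintype ι] (α : ι → PL S → Fin 2 → ℂ) (P : Set (PL S)) (δ β : ℝ) : Prop :=
  ∀ ε : ℝ, 0 < ε → ∃ᶠ σ : ℝ in 𝓝[>] 1, (δ - ε) * wt (Set.univ : Set (PL S)) σ ≤ wt P σ ∧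
    (β - ε) * (Fintype.card ι : ℝ) * wt P σ ≤ ∑ i, wt (P ∩ Violates (α i)) σ

/-- the number of the violating forms at a place -/
noncomputable def num {ι : Type*} [Fintype ι] (α : ι → PL S → Fin 2 → ℂ) (v : PL S) : ℝ :=
  ∑ i, (Violates (α i)).indicator (fun _ => (1 : ℝ)) v

theorem sum_bound {Q : PL S → ℝ} {c : ℝ} (hB : Bdd fun v => Q v - c) :
    ∃ C : ℝ, 0 ≤ C ∧ ∀ σ : ℝ, 1 < σ → σ ≤ 2 → (Summable fun v : PL S => Q v * (qq v.1 : ℝ) ^ (-σ)) ∧
      |∑' v : PL S, Q v * (qq v.1 : ℝ) ^ (-σ) - c * wt (Set.univ : Set (PL S)) σ| ≤ C := by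
  obtain ⟨h1, C, hC0, hC⟩ := hB
  refine ⟨C, hC0, fun σ h2 h3 => ?_⟩
  have h4 := h1 σ h2
  have h5 : Summable fun v : PL S => c * (qq v.1 : ℝ) ^ (-σ) := (summable_qq h2).mul_left c
  have h6 : Summable fun v : PL S => Q v * (qq v.1 : ℝ) ^ (-σ) := (h4.add h5).congr fun v => by ring
  refine ⟨h6, ?_⟩
  have e : ∑' v : PL S, Q v * (qq v.1 : ℝ) ^ (-σ) - c * wt (Set.univ : Set (PL S)) σ =
      ∑' v : PL S, (Q v - c) * (qq v.1 : ℝ) ^ (-σ) := by
    rw [wt_univ, ← tsum_mul_left, ← h6.tsum_sub h5]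
    exact tsum_congr fun v => by ring
  rw [e]
  exact hC σ h2 h3

/-- **The dual inequality.** -/
theorem dual {ι : Type*} [Fintype ι] {α : ι → PL S → Fin 2 → ℂ} {P : Set (PL S)} {δ β : ℝ} (hδ : 0 < δ)
    (hV : OftenViolate α P δ β) {Q : PL S → ℝ} {c lam κ : ℝ} (hlam : 0 ≤ lam) (hQ0 : ∀ v, 0 ≤ Q v)
    (hQP : ∀ v ∈ P, lam * num α v - κ ≤ Q v) (hB : Bdd fun v => Q v - c) :
    (lam * (β * (Fintype.card ι : ℝ)) - κ) * δ ≤ c := by
  obtain ⟨C, hC0, hC⟩ := sum_bound hB
  have hWt : Tendsto (wt (Set.univ : Set (PL S))) (𝓝[>] 1) atTop := wt_univ_tendsto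
  have hT0 : ∀ σ : ℝ, 0 ≤ ∑' v : PL S, Q v * (qq v.1 : ℝ) ^ (-σ) := fun σ =>
    tsum_nonneg fun v => mul_nonneg (hQ0 v) (Real.rpow_nonneg (qq_pos v.1).le _)
  have hev : ∀ᶠ σ : ℝ in 𝓝[>] 1, 1 < σ ∧ σ ≤ 2 := by
    filter_upwards [self_mem_nhdsWithin, nhdsWithin_le_nhds (gt_mem_nhds (show (1 : ℝ) < 2 by norm_num))] with σ h1 h2
    exact ⟨h1, h2.le⟩
  have hc : 0 ≤ c := by
    by_contra hcon
    push Not at hcon
    obtain ⟨σ, h1, h2⟩ := (hev.and (hWt.eventually_gt_atTop (C / (-c)))).exists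
    have h3 := (abs_le.1 (hC σ h1.1 h1.2).2).2
    have h4 := hT0 σ
    rw [div_lt_iff₀ (by linarith)] at h2
    linarith
  by_contra hcon
  push Not at hcon
  have hpos : 0 < lam * (β * (Fintype.card ι : ℝ)) - κ := by
    by_contra h1
    push Not at h1
    have := mul_nonpos_of_nonpos_of_nonneg h1 hδ.le
    linarith
  -- a small `ε`
  set g : ℝ → ℝ := fun ε => (lam * ((β - ε) * (Fintype.card ι : ℝ)) - κ) * (δ - ε) with hg
  have hgc : Continuous g := by
    rw [hg]
    fun_prop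
  have hg0 : c < g 0 := by
    rw [hg]
    simpa using hcon
  have hg1 : ∀ᶠ ε : ℝ in 𝓝[>] 0, (c + g 0) / 2 < g ε :=
    (hgc.tendsto 0).mono_left nhdsWithin_le_nhds |>.eventually (lt_mem_nhds (by linarith))
  have hp1 : ∀ᶠ ε : ℝ in 𝓝[>] 0, 0 < lam * ((β - ε) * (Fintype.card ι : ℝ)) - κ := by
    have hcont : Continuous fun ε : ℝ => lam * ((β - ε) * (Fintype.card ι : ℝ)) - κ := by fun_prop
    refine (hcont.tendsto 0).mono_left nhdsWithin_le_nhds |>.eventually (lt_mem_nhds ?_)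
    simpa using hpos
  obtain ⟨ε, ⟨h1, h2⟩, hε⟩ := ((hg1.and hp1).and self_mem_nhdsWithin).exists
  have hε0 : 0 < ε := hε
  obtain ⟨σ, ⟨h3, h4⟩, h5, h6⟩ := ((hV ε hε0).and_eventually
    (hev.and (hWt.eventually_gt_atTop (2 * C / (g 0 - c))))).exists
  obtain ⟨hQs, hQC⟩ := hC σ h5.1 h5.2
  have hup := (abs_le.1 hQC).2
  set W := wt (Set.univ : Set (PL S)) σ with hW
  have hW0 : 0 ≤ W := wt_nonneg _ _
  -- the lower bound
  have hlow : lam * ∑ i, wt (P ∩ Violates (α i)) σ - κ * wt P σ ≤ ∑' v : PL S, Q v * (qq v.1 : ℝ) ^ (-σ) := by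
    have hs : HasSum (fun v : PL S => lam * ∑ i, (P ∩ Violates (α i)).indicator (fun v => (qq v.1 : ℝ) ^ (-σ)) v -
        κ * P.indicator (fun v => (qq v.1 : ℝ) ^ (-σ)) v)
        (lam * ∑ i, wt (P ∩ Violates (α i)) σ - κ * wt P σ) := by
      refine ((hasSum_sum fun i _ => ?_).mul_left lam).sub (HasSum.mul_left κ ?_)
      · exact (wt_summable (P ∩ Violates (α i)) h5.1).hasSum
      · exact (wt_summable P h5.1).hasSum
    refine hasSum_le (fun v => ?_) hs hQs.hasSum
    have hq0 : 0 ≤ (qq v.1 : ℝ) ^ (-σ) := Real.rpow_nonneg (qq_pos v.1).le _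
    by_cases hv : v ∈ P
    · have e : ∑ i, (P ∩ Violates (α i)).indicator (fun v : PL S => (qq v.1 : ℝ) ^ (-σ)) v =
          num α v * (qq v.1 : ℝ) ^ (-σ) := by
        unfold num
        rw [Finset.sum_mul]
        refine Finset.sum_congr rfl fun i _ => ?_
        by_cases hi : v ∈ Violates (α i)
        · rw [Set.indicator_of_mem (s := P ∩ Violates (α i)) ⟨hv, hi⟩, Set.indicator_of_mem hi, one_mul]
        · rw [Set.indicator_of_notMem (s := P ∩ Violates (α i)) (fun h => hi h.2), Set.indicator_of_notMem hi, zero_mul]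
      rw [e, Set.indicator_of_mem hv]
      have h7 := mul_le_mul_of_nonneg_right (hQP v hv) hq0
      linarith
    · have e : ∑ i, (P ∩ Violates (α i)).indicator (fun v : PL S => (qq v.1 : ℝ) ^ (-σ)) v = 0 :=
        Finset.sum_eq_zero fun i _ => Set.indicator_of_notMem (s := P ∩ Violates (α i)) (fun h => hv h.1) _
      rw [e, Set.indicator_of_notMem hv]
      have := mul_nonneg (hQ0 v) hq0
      linarith
  have hsum : (β - ε) * (Fintype.card ι : ℝ) * wt P σ ≤ ∑ i, wt (P ∩ Violates (α i)) σ := h4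
  have h8 : (lam * ((β - ε) * (Fintype.card ι : ℝ)) - κ) * wt P σ ≤ c * W + C := by
    have := mul_le_mul_of_nonneg_left hsum hlam
    nlinarith
  have h9 : g ε * W ≤ c * W + C := by
    have := mul_le_mul_of_nonneg_left h3 h2.le
    rw [hg]
    nlinarith
  have h10 : (c + g 0) / 2 * W ≤ c * W + C := (mul_le_mul_of_nonneg_right h1.le hW0).trans h9
  rw [div_lt_iff₀ (by linarith)] at h6
  linarith

end Pool.Agent.Q164.RM
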