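import Mathlib
import Pool.Agent.Q164.RM.Dual

/-! The three majorants. -/

set_option autoImplicit false

namespace Pool.Agent.Q164.RM

open Complex Filter Topology NumberField IsDedekindDomain Pool.Agent.TH861.GL3 Pool.Agent.Q251.GN

variable {K : Type*} [Field K] [NumberField K] {S : Finset (HeightOneSpectrum (𝓞 K))}
variable {ι : Type*} [Fintype ι] {α : ι → PL S → Fin 2 → ℂ}

/-- `a Ad + b A^4` -/
noncomputable def hh (a b : ℝ) (α : PL S → Fin 2 → ℂ) (v : PL S) : ℝ := a * tr 1 α v + b * tr 2 α v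

theorem hh_violates {α : PL S → Fin 2 → ℂ} (h : CuspidalGL2 α) {a b : ℝ} (ha : 0 ≤ a) (hb : 0 ≤ b) {v : PL S}
    (hv : v ∈ Violates α) : 3 * a + 5 * b ≤ hh a b α v := by
  have h1 : 3 ≤ tr 1 α v := three_le (h.uni v) hv
  have h2 : tr 2 α v = tr 1 α v ^ 2 - tr 1 α v - 1 := re_rel (h.uni v)
  have h3 : 5 ≤ tr 2 α v := by
    rw [h2]
    nlinarith
  unfold hh
  nlinarith

theorem hh_sq {α : PL S → Fin 2 → ℂ} (h : CuspidalGL2 α) (v : PL S) :
    (1 + 3 * tr 1 α v) ^ 2 = 10 + hh 15 9 α v := by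
  have h2 : tr 2 α v = tr 1 α v ^ 2 - tr 1 α v - 1 := re_rel (h.uni v)
  unfold hh
  rw [h2]
  ring

theorem bdd_hh {α : PL S → Fin 2 → ℂ} (h : CuspidalGL2 α) (a b : ℝ) : Bdd (hh a b α) :=
  (((bdd_single h (Or.inl rfl)).mul a).add ((bdd_single h (Or.inr rfl)).mul b)).congr fun _ => rfl

theorem bdd_hh_sq {α : PL S → Fin 2 → ℂ} (h : CuspidalGL2 α) (a b : ℝ) :
    Bdd fun v => hh a b α v ^ 2 - (a ^ 2 + b ^ 2) := by
  refine ((((bdd_self h (a := 1) (Or.inl rfl)).mul (a ^ 2)).add ((bdd_self h (a := 2) (Or.inr rfl)).mul (b ^ 2))).add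
    ((bdd_mixed h).mul (2 * a * b))).congr fun v => ?_
  unfold hh
  ring

theorem bdd_hh_mul {α β : PL S → Fin 2 → ℂ} (h : CuspidalGL2 α) (h' : CuspidalGL2 β) (hne : Inequivalent α β)
    (a b : ℝ) : Bdd fun v => hh a b α v * hh a b β v := by
  refine (((((bdd_pair h h' hne (a := 1) (b := 1) (Or.inl rfl) (Or.inl rfl)).mul (a ^ 2)).add
    ((bdd_pair h h' hne (a := 2) (b := 2) (Or.inr rfl) (Or.inr rfl)).mul (b ^ 2))).add
    ((bdd_pair h h' hne (a := 1) (b := 2) (Or.inl rfl) (Or.inr rfl)).mul (a * b))).add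
    ((bdd_pair h h' hne (a := 2) (b := 1) (Or.inr rfl) (Or.inl rfl)).mul (a * b))).congr fun v => ?_
  unfold hh
  ring

theorem bdd_sum_sq (h : ∀ i, CuspidalGL2 (α i)) (hne : Pairwise fun i j => Inequivalent (α i) (α j)) (a b : ℝ) :
    Bdd fun v => (∑ i, hh a b (α i) v) ^ 2 - (Fintype.card ι : ℝ) * (a ^ 2 + b ^ 2) := by
  classical
  have h1 : ∀ i j, Bdd fun v => hh a b (α i) v * hh a b (α j) v - if i = j then a ^ 2 + b ^ 2 else 0 := by
    intro i j
    by_cases hij : i = j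
    · subst hij
      refine (bdd_hh_sq (h i) a b).congr fun v => ?_
      rw [if_pos rfl]
      ring
    · refine (bdd_hh_mul (h i) (h j) (hne hij) a b).congr fun v => ?_
      rw [if_neg hij]
      ring
  refine (Bdd.sum Finset.univ fun i _ => Bdd.sum Finset.univ fun j _ => h1 i j).congr fun v => ?_
  rw [sq, Finset.sum_mul_sum]
  have e : ∀ i : ι, ∑ j, (hh a b (α i) v * hh a b (α j) v - if i = j then a ^ 2 + b ^ 2 else 0) =
      ∑ j, hh a b (α i) v * hh a b (α j) v - (a ^ 2 + b ^ 2) := by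
    intro i
    rw [Finset.sum_sub_distrib, Finset.sum_ite_eq]
    simp
  rw [Finset.sum_congr rfl fun i _ => e i, Finset.sum_sub_distrib, Finset.sum_const, Finset.card_univ, nsmul_eq_mul]

theorem bdd_sum_hh (h : ∀ i, CuspidalGL2 (α i)) (a b : ℝ) : Bdd fun v => ∑ i, hh a b (α i) v :=
  Bdd.sum Finset.univ fun i _ => bdd_hh (h i) a b

theorem bdd_sum_hh_sq (h : ∀ i, CuspidalGL2 (α i)) (a b : ℝ) :
    Bdd fun v => ∑ i, hh a b (α i) v ^ 2 - (Fintype.card ι : ℝ) * (a ^ 2 + b ^ 2) := by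
  refine (Bdd.sum Finset.univ fun i _ => bdd_hh_sq (h i) a b).congr fun v => ?_
  rw [Finset.sum_sub_distrib, Finset.sum_const, Finset.card_univ, nsmul_eq_mul]

/-- the number of violating forms, if not all of them -/
theorem num_all_or (v : PL S) : (∀ i, v ∈ Violates (α i)) ∧ num α v = Fintype.card ι ∨
    num α v ≤ (Fintype.card ι : ℝ) - 1 := by
  classical
  by_cases hall : ∀ i, v ∈ Violates (α i)
  · left
    refine ⟨hall, ?_⟩
    unfold num
    rw [Finset.sum_congr rfl fun i _ => Set.indicator_of_mem (hall i) (fun _ => (1 : ℝ)), Finset.sum_const,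
      Finset.card_univ, nsmul_eq_mul, mul_one]
  · right
    push Not at hall
    obtain ⟨i, hi⟩ := hall
    unfold num
    rw [← Finset.add_sum_erase _ _ (Finset.mem_univ i), Set.indicator_of_notMem hi, zero_add]
    refine (Finset.sum_le_card_nsmul (Finset.univ.erase i) _ 1 fun j _ => ?_).trans ?_
    · exact Set.indicator_le' (fun _ _ => le_rfl) (fun _ _ => zero_le_one) v
    · rw [Finset.card_erase_of_mem (Finset.mem_univ i), Finset.card_univ, nsmul_eq_mul, mul_one,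
        Nat.cast_sub (Fintype.card_pos_iff.2 ⟨i⟩)]
      simp

/-- **All forms at once.** -/
theorem app_one (h : ∀ i, CuspidalGL2 (α i)) (hne : Pairwise fun i j => Inequivalent (α i) (α j)) {P : Set (PL S)}
    {δ β : ℝ} (hδ : 0 < δ) (hV : OftenViolate α P δ β) :
    (1 - (1 - β) * (Fintype.card ι : ℝ)) * ((1 + 34 * (Fintype.card ι : ℝ)) * δ) ≤ 1 := by
  set m : ℝ := (Fintype.card ι : ℝ) with hm
  have hm0 : 0 ≤ m := Nat.cast_nonneg _
  set D : ℝ := 1 + 34 * m with hD
  have hD0 : 0 < D := by positivity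
  have hB : Bdd fun v : PL S => (1 + ∑ i, hh 3 5 (α i) v) ^ 2 - D := by
    refine ((bdd_sum_sq h hne 3 5).add ((bdd_sum_hh h 3 5).mul 2)).congr fun v => ?_
    rw [← hm, hD]
    ring
  have h1 := dual (α := α) hδ hV (Q := fun v => (1 + ∑ i, hh 3 5 (α i) v) ^ 2) (c := D) (lam := D ^ 2)
    (κ := D ^ 2 * (m - 1)) (by positivity) (fun v => sq_nonneg _) (fun v _ => ?_) hB
  · rw [← hm] at h1
    have h2 : D * ((1 - (1 - β) * m) * (D * δ)) ≤ D * 1 := by nlinarith
    exact le_of_mul_le_mul_left h2 hD0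
  · rcases num_all_or (α := α) v with ⟨hall, hn⟩ | hn
    · have h2 : 34 * m ≤ ∑ i, hh 3 5 (α i) v := by
        have h3 : ∑ _i : ι, (34 : ℝ) ≤ ∑ i, hh 3 5 (α i) v := Finset.sum_le_sum fun i _ => by
          have := hh_violates (h i) (a := 3) (b := 5) (by norm_num) (by norm_num) (hall i)
          linarith
        rw [Finset.sum_const, Finset.card_univ, nsmul_eq_mul] at h3
        linarith
      rw [hn, ← hm]
      have h4 : D ≤ 1 + ∑ i, hh 3 5 (α i) v := by linarith
      have h5 := pow_le_pow_left₀ hD0.le h4 2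
      linarith
    · rw [← hm] at hn
      have h3 : D ^ 2 * num α v ≤ D ^ 2 * (m - 1) := mul_le_mul_of_nonneg_left hn (by positivity)
      have h4 := sq_nonneg (1 + ∑ i, hh 3 5 (α i) v)
      linarith

/-- **Two forms.** -/
theorem app_two (h : ∀ i, CuspidalGL2 (α i)) (hne : Pairwise fun i j => Inequivalent (α i) (α j)) {P : Set (PL S)}
    {δ β : ℝ} (hδ : 0 < δ) (hV : OftenViolate α P δ β) {i j : ι} (hij : i ≠ j) :
    (1 - (1 - β) * (Fintype.card ι : ℝ)) * (100 * δ) ≤ 1 := by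
  set m : ℝ := (Fintype.card ι : ℝ) with hm
  have hB : Bdd fun v : PL S => ((1 + 3 * tr 1 (α i) v) * (1 + 3 * tr 1 (α j) v)) ^ 2 - 100 := by
    refine (((bdd_hh_mul (h i) (h j) (hne hij) 15 9).add ((bdd_hh (h i) 15 9).mul 10)).add
      ((bdd_hh (h j) 15 9).mul 10)).congr fun v => ?_
    rw [mul_pow, hh_sq (h i), hh_sq (h j)]
    ring
  have h1 := dual (α := α) hδ hV (Q := fun v => ((1 + 3 * tr 1 (α i) v) * (1 + 3 * tr 1 (α j) v)) ^ 2) (c := 100)
    (lam := 10000) (κ := 10000 * (m - 1)) (by norm_num) (fun v => sq_nonneg _) (fun v _ => ?_) hB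
  · rw [← hm] at h1
    linarith
  · rcases num_all_or (α := α) v with ⟨hall, hn⟩ | hn
    · rw [hn, ← hm]
      have h2 : 3 ≤ tr 1 (α i) v := three_le ((h i).uni v) (hall i)
      have h3 : 3 ≤ tr 1 (α j) v := three_le ((h j).uni v) (hall j)
      have h4 : 100 ≤ (1 + 3 * tr 1 (α i) v) * (1 + 3 * tr 1 (α j) v) := by nlinarith
      nlinarith
    · rw [← hm] at hn
      have h4 := sq_nonneg ((1 + 3 * tr 1 (α i) v) * (1 + 3 * tr 1 (α j) v))
      linarith

theorem num_le_sum (h : ∀ i, CuspidalGL2 (α i)) {a b : ℝ} (ha : 0 ≤ a) (hb : 0 ≤ b) {q : ℝ} (hq : 0 ≤ q) (v : PL S) :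
    (3 * a + 5 * b + q) ^ 2 * num α v ≤ ∑ i, (hh a b (α i) v + q) ^ 2 := by
  unfold num
  rw [Finset.mul_sum]
  refine Finset.sum_le_sum fun i _ => ?_
  by_cases hi : v ∈ Violates (α i)
  · rw [Set.indicator_of_mem hi, mul_one]
    have h1 := hh_violates (h i) ha hb hi
    exact pow_le_pow_left₀ (by positivity) (by linarith) 2
  · rw [Set.indicator_of_notMem hi, mul_zero]
    exact sq_nonneg _

/-- **The second majorant.** -/
theorem app_three (h : ∀ i, CuspidalGL2 (α i)) (hne : Pairwise fun i j => Inequivalent (α i) (α j)) {P : Set (PL S)}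
    {δ β : ℝ} (hδ : 0 < δ) (hV : OftenViolate α P δ β) (hm : 0 < (Fintype.card ι : ℝ)) {A q : ℝ} (hA : 0 < A)
    (hq : 0 ≤ q) :
    (Fintype.card ι : ℝ) * (((34 + q) ^ 2 * β - q ^ 2 - q ^ 2 / A) * δ - 34) ≤ 34 * A := by
  set m : ℝ := (Fintype.card ι : ℝ) with hmd
  have hB : Bdd fun v : PL S => (∑ i, hh 3 5 (α i) v ^ 2 + A / m * (∑ i, hh 3 5 (α i) v) ^ 2) - (34 * m + 34 * A) := by
    refine ((bdd_sum_hh_sq h 3 5).add ((bdd_sum_sq h hne 3 5).mul (A / m))).congr fun v => ?_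
    rw [← hmd]
    field_simp
    ring
  have h1 := dual (α := α) hδ hV (Q := fun v => ∑ i, hh 3 5 (α i) v ^ 2 + A / m * (∑ i, hh 3 5 (α i) v) ^ 2)
    (c := 34 * m + 34 * A) (lam := (34 + q) ^ 2) (κ := q ^ 2 * (1 + 1 / A) * m) (by positivity)
    (fun v => by positivity) (fun v _ => ?_) hB
  · rw [← hmd] at h1
    have e : q ^ 2 / A = q ^ 2 * (1 / A) := by ring
    rw [e]
    nlinarith
  · have h2 := num_le_sum h (a := 3) (b := 5) (by norm_num) (by norm_num) hq v
    have e1 : ∑ i, (hh 3 5 (α i) v + q) ^ 2 =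
        ∑ i, hh 3 5 (α i) v ^ 2 + 2 * q * ∑ i, hh 3 5 (α i) v + m * q ^ 2 := by
      rw [Finset.mul_sum, ← Finset.sum_add_distrib, hmd]
      have e2 : (Fintype.card ι : ℝ) * q ^ 2 = ∑ _i : ι, q ^ 2 := by
        rw [Finset.sum_const, Finset.card_univ, nsmul_eq_mul]
      rw [e2, ← Finset.sum_add_distrib]
      exact Finset.sum_congr rfl fun i _ => by ring
    set H := ∑ i, hh 3 5 (α i) v with hH
    have h3 : 0 ≤ A / m * (H - q * m / A) ^ 2 := by positivity
    have e3 : A / m * (H - q * m / A) ^ 2 = A / m * H ^ 2 - 2 * q * H + q ^ 2 * (1 / A) * m := by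
      field_simp
      ring
    rw [e3] at h3
    have e4 : (3 * 3 + 5 * 5 + q) ^ 2 = (34 + q) ^ 2 := by norm_num
    rw [e4, e1] at h2
    nlinarith

/-- **The third majorant.** -/
theorem app_four (h : ∀ i, CuspidalGL2 (α i)) (hne : Pairwise fun i j => Inequivalent (α i) (α j)) {P : Set (PL S)}
    {δ β : ℝ} (hδ : 0 < δ) (hV : OftenViolate α P δ β) {t : ℝ} (ht : 0 < t) :
    ((β - 1 / 10) * (Fintype.card ι : ℝ) - t / 2) * δ ≤ 153 / 10000 * (Fintype.card ι : ℝ) / t := by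
  set m : ℝ := (Fintype.card ι : ℝ) with hmd
  have hB : Bdd fun v : PL S => (∑ i, hh (15 / 100) (9 / 100) (α i) v) ^ 2 / (2 * t) - 153 / 10000 * m / t := by
    refine ((bdd_sum_sq h hne (15 / 100) (9 / 100)).mul (1 / (2 * t))).congr fun v => ?_
    rw [← hmd]
    field_simp
    ring
  have h1 := dual (α := α) hδ hV (Q := fun v => (∑ i, hh (15 / 100) (9 / 100) (α i) v) ^ 2 / (2 * t))
    (c := 153 / 10000 * m / t) (lam := 1) (κ := m / 10 + t / 2) (by norm_num)
    (fun v => by positivity) (fun v _ => ?_) hB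
  · rw [← hmd] at h1
    refine le_trans (le_of_eq ?_) h1
    ring
  · have h2 : num α v ≤ m / 10 + ∑ i, hh (15 / 100) (9 / 100) (α i) v := by
      have h3 : num α v ≤ ∑ i, (1 / 10 + hh (15 / 100) (9 / 100) (α i) v) := by
        unfold num
        refine Finset.sum_le_sum fun i _ => ?_
        have e : 1 / 10 + hh (15 / 100) (9 / 100) (α i) v = (1 + 3 * tr 1 (α i) v) ^ 2 / 100 := by
          rw [hh_sq (h i)]
          unfold hh
          ring
        rw [e]
        by_cases hi : v ∈ Violates (α i)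
        · rw [Set.indicator_of_mem hi]
          have h4 : 3 ≤ tr 1 (α i) v := three_le ((h i).uni v) hi
          nlinarith
        · rw [Set.indicator_of_notMem hi]
          positivity
      refine h3.trans (le_of_eq ?_)
      rw [Finset.sum_add_distrib, Finset.sum_const, Finset.card_univ, nsmul_eq_mul, hmd]
      ring
    set Y := ∑ i, hh (15 / 100) (9 / 100) (α i) v with hY
    have h5 : Y ≤ t / 2 + Y ^ 2 / (2 * t) := by
      have h6 : 0 ≤ (Y - t) ^ 2 / (2 * t) := by positivity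
      have e : (Y - t) ^ 2 / (2 * t) = t / 2 + Y ^ 2 / (2 * t) - Y := by
        field_simp
        ring
      rw [e] at h6
      linarith
    linarith

end Pool.Agent.Q164.RM
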