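import Mathlib
import Pool.Agent.Q164.RM.App

/-! The bounds in closed form. -/

set_option autoImplicit false

namespace Pool.Agent.Q164.RM

open Complex Filter Topology NumberField IsDedekindDomain Pool.Agent.TH861.GL3 Pool.Agent.Q251.GN

variable {K : Type*} [Field K] [NumberField K] {S : Finset (HeightOneSpectrum (𝓞 K))}
variable {ι : Type*} [Fintype ι] {α : ι → PL S → Fin 2 → ℂ}

theorem one_form (h : ∀ i, CuspidalGL2 (α i)) {P : Set (PL S)} {δ β : ℝ} (hδ : 0 < δ)
    (hV : OftenViolate α P δ β) (hm : 0 < (Fintype.card ι : ℝ)) : 35 * (β * δ) ≤ 1 := by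
  set m : ℝ := (Fintype.card ι : ℝ) with hmd
  have hB : Bdd fun v : PL S => ∑ i, (1 + hh 3 5 (α i) v) ^ 2 / 1225 - m / 35 := by
    refine (((bdd_sum_hh_sq h 3 5).add ((bdd_sum_hh h 3 5).mul 2)).mul (1 / 1225)).congr fun v => ?_
    have e : ∑ i, (1 + hh 3 5 (α i) v) ^ 2 / 1225 =
        (m + 2 * ∑ i, hh 3 5 (α i) v + ∑ i, hh 3 5 (α i) v ^ 2) / 1225 := by
      have e2 : m = ∑ _i : ι, (1 : ℝ) := by
        rw [Finset.sum_const, Finset.card_univ, nsmul_eq_mul, mul_one]
      rw [e2, Finset.mul_sum, ← Finset.sum_add_distrib, ← Finset.sum_add_distrib, Finset.sum_div]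
      exact Finset.sum_congr rfl fun i _ => by ring
    rw [e, ← hmd]
    ring
  have h1 := dual (α := α) hδ hV (Q := fun v => ∑ i, (1 + hh 3 5 (α i) v) ^ 2 / 1225) (c := m / 35) (lam := 1)
    (κ := 0) (by norm_num) (fun v => Finset.sum_nonneg fun i _ => by positivity) (fun v _ => ?_) hB
  · rw [← hmd] at h1
    have h2 : m * (35 * (β * δ)) ≤ m * 1 := by linarith
    exact le_of_mul_le_mul_left h2 hm
  · rw [one_mul, sub_zero]
    unfold num
    refine Finset.sum_le_sum fun i _ => ?_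
    by_cases hi : v ∈ Violates (α i)
    · rw [Set.indicator_of_mem hi]
      have h2 := hh_violates (h i) (a := 3) (b := 5) (by norm_num) (by norm_num) hi
      rw [le_div_iff₀ (by norm_num)]
      nlinarith
    · rw [Set.indicator_of_notMem hi]
      positivity

/-- the closed form of the second bound, `β < 1` -/
theorem closed {m δ β : ℝ} (hδ : 0 < δ) (hβ : 0 < β) (hβ1 : β < 1) (hβδ : 35 * (β * δ) ≤ 1)
    (hreg : 1 < β * (1 + 34 * δ))
    (hm : ∀ A q : ℝ, 0 < A → 0 ≤ q → m * (((34 + q) ^ 2 * β - q ^ 2 - q ^ 2 / A) * δ - 34) ≤ 34 * A) :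
    m * (β * Real.sqrt (34 * δ) - Real.sqrt ((1 - β) * (1 - 34 * β * δ))) ^ 2 ≤ 1 := by
  set a := Real.sqrt (34 * δ) with ha
  set b := Real.sqrt ((1 - β) * (1 - 34 * β * δ)) with hb
  have h34 : 0 < 1 - 34 * β * δ := by nlinarith [mul_pos hβ hδ]
  have hb2 : b ^ 2 = (1 - β) * (1 - 34 * β * δ) := Real.sq_sqrt (mul_nonneg (by linarith) h34.le)
  have ha2 : a ^ 2 = 34 * δ := Real.sq_sqrt (by positivity)
  have ha0 : 0 < a := Real.sqrt_pos.2 (by positivity)
  have hb0 : 0 < b := Real.sqrt_pos.2 (mul_pos (by linarith) h34)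
  have hs : 0 < β * a - b := by
    have h1 : b ^ 2 < (β * a) ^ 2 := by
      rw [mul_pow, hb2, ha2]
      nlinarith
    have h2 := lt_of_pow_lt_pow_left₀ 2 (by positivity) h1
    linarith
  set s := β * a - b with hsd
  have h1β : 0 < 1 - β := by linarith
  set q := 34 * b / (a * (1 - β)) with hq
  have hq0 : 0 < q := by positivity
  set A := q * δ / (a * s) with hA
  have hA0 : 0 < A := by positivity
  have key := hm A q hA0 hq0.le
  have hδa : δ = a ^ 2 / 34 := by rw [ha2]; ring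
  -- the two identities
  have hqb : q * a * (1 - β) = 34 * b := by
    rw [hq]
    field_simp
  have e1 : q ^ 2 / A * δ = q * a * s := by
    rw [hA]
    field_simp
  have e2 : ((34 + q) ^ 2 * β - q ^ 2) * δ - 34 = 2 * q * a * s := by
    have e3 : q ^ 2 * a ^ 2 * (1 - β) = 34 ^ 2 * (1 - 34 * β * δ) := by
      have h3 : (q * a * (1 - β)) ^ 2 = (34 * b) ^ 2 := by rw [hqb]
      have h4 : (q ^ 2 * a ^ 2 * (1 - β)) * (1 - β) = (34 ^ 2 * (1 - 34 * β * δ)) * (1 - β) := by
        have : (q ^ 2 * a ^ 2 * (1 - β)) * (1 - β) = (q * a * (1 - β)) ^ 2 := by ring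
        rw [this, h3, mul_pow, hb2]
        ring
      exact mul_right_cancel₀ h1β.ne' h4
    have e4 : q * a * b = 34 * (1 - 34 * β * δ) := by
      have h4 : (q * a * b) * (1 - β) = (34 * (1 - 34 * β * δ)) * (1 - β) := by
        have : (q * a * b) * (1 - β) = (q * a * (1 - β)) * b := by ring
        rw [this, hqb]
        nlinarith [hb2]
      exact mul_right_cancel₀ h1β.ne' h4
    rw [hsd]
    have e5 : 2 * q * a * (β * a - b) = 2 * q * β * a ^ 2 - 2 * (q * a * b) := by ring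
    rw [e5, e4, ha2]
    rw [ha2] at e3
    linarith
  have e6 : ((34 + q) ^ 2 * β - q ^ 2 - q ^ 2 / A) * δ - 34 = q * a * s := by
    have : ((34 + q) ^ 2 * β - q ^ 2 - q ^ 2 / A) * δ - 34 =
        (((34 + q) ^ 2 * β - q ^ 2) * δ - 34) - q ^ 2 / A * δ := by ring
    rw [this, e1, e2]
    ring
  rw [e6] at key
  have e7 : 34 * A = q * a / s := by
    rw [hA, hδa]
    field_simp
  rw [e7, le_div_iff₀ hs] at key
  have hqa : 0 < q * a := by positivity
  have e8 : m * (q * a * s) * s = (q * a) * (m * s ^ 2) := by ring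
  rw [e8] at key
  have : (q * a) * (m * s ^ 2) ≤ (q * a) * 1 := by linarith
  exact le_of_mul_le_mul_left this hqa

/-- **Few simultaneous violators.** -/
theorem few [Nonempty ι] (h : ∀ i, CuspidalGL2 (α i)) (hne : Pairwise fun i j => Inequivalent (α i) (α j))
    (P : Set (PL S)) {δ β : ℝ} (hδ : 0 < δ) (hβ : 0 < β) (hβ1 : β ≤ 1) (hV : OftenViolate α P δ β) :
    (β = 1 → (Fintype.card ι : ℝ) ≤ (1 - δ) / (34 * δ) ∧ (2 ≤ Fintype.card ι → δ ≤ 1 / 100)) ∧
    (1 < β * (1 + 34 * δ) → (Fintype.card ι : ℝ) ≤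
      1 / (β * Real.sqrt (34 * δ) - Real.sqrt ((1 - β) * (1 - 34 * β * δ))) ^ 2) ∧
    (1 / 10 < β → (Fintype.card ι : ℝ) ≤ 153 / (5000 * δ * (β - 1 / 10) ^ 2)) := by
  have hm : 0 < (Fintype.card ι : ℝ) := by exact_mod_cast Fintype.card_pos
  have hb := one_form h hδ hV hm
  have h1 : β = 1 → (Fintype.card ι : ℝ) ≤ (1 - δ) / (34 * δ) := by
    rintro rfl
    have h2 := app_one h hne hδ hV
    rw [le_div_iff₀ (by positivity)]
    nlinarith
  refine ⟨fun hb1 => ⟨h1 hb1, fun hc => ?_⟩, fun hreg => ?_, fun hb10 => ?_⟩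
  · obtain ⟨i, j, hij⟩ := Fintype.one_lt_card_iff.1 (by omega : 1 < Fintype.card ι)
    have h2 := app_two h hne hδ hV hij
    rw [hb1] at h2
    linarith
  · have h34 : 0 < 1 - 34 * β * δ := by nlinarith [mul_pos hβ hδ]
    have hpos : 0 < β * Real.sqrt (34 * δ) - Real.sqrt ((1 - β) * (1 - 34 * β * δ)) := by
      have h2 : Real.sqrt ((1 - β) * (1 - 34 * β * δ)) ^ 2 < (β * Real.sqrt (34 * δ)) ^ 2 := by
        rw [mul_pow, Real.sq_sqrt (mul_nonneg (by linarith) h34.le), Real.sq_sqrt (by positivity)]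
        nlinarith
      have h3 := lt_of_pow_lt_pow_left₀ 2 (by positivity) h2
      linarith
    rw [le_div_iff₀ (by positivity)]
    rcases lt_or_eq_of_le hβ1 with h2 | h2
    · exact closed hδ hβ h2 hb hreg fun A q hA hq => app_three h hne hδ hV hm hA hq
    · have h3 := h1 h2
      rw [le_div_iff₀ (by positivity)] at h3
      rw [h2]
      have e : (1 * Real.sqrt (34 * δ) - Real.sqrt ((1 - 1) * (1 - 34 * 1 * δ))) ^ 2 = 34 * δ := by
        rw [sub_self, zero_mul, Real.sqrt_zero, sub_zero, one_mul, Real.sq_sqrt (by positivity)]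
      rw [e]
      linarith
  · have hg : 0 < β - 1 / 10 := by linarith
    have h2 := app_four h hne hδ hV (t := (β - 1 / 10) * (Fintype.card ι : ℝ)) (by positivity)
    rw [le_div_iff₀ (by positivity)]
    have e : 153 / 10000 * (Fintype.card ι : ℝ) / ((β - 1 / 10) * (Fintype.card ι : ℝ)) =
        153 / 10000 / (β - 1 / 10) := by
      field_simp
    rw [e, le_div_iff₀ hg] at h2
    nlinarith

end Pool.Agent.Q164.RM
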